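import Pool.Agent.X223.MS.Sqf

/-!
Q1 of MP_c6a6a6_lc, negative answer: no model of the theory of the integers with the square-free
integers is MS-measurable.

In any model `M` the maps `x ↦ x + x` and `x ↦ x + x + 1` are definable bijections of `M` onto two
complementary definable sets, so that `h(M) = (d, μ)` implies `(d, μ) = (d, μ + μ)`.
-/

set_option autoImplicit false

namespace Pool.Agent.Results.MP_c6a6a6_lc.NotMSMeasurable

open FirstOrder Pool.Agent.X223.MS

universe w

theorem result (M : Type w) [sqfLang.Structure M] (hM : M ⊨ TSqf) :
    ¬ MSMeasurable sqfLang M :=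
  not_meas hM

end Pool.Agent.Results.MP_c6a6a6_lc.NotMSMeasurable
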